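import Mathlib
import Pool.Agent.helper18.Rot.Core
import Pool.Agent.helper18.Rot.Symbolic
import Pool.Agent.helper18.Rot.Surface

/-!
# A homological rotation set that is not a finite union of convex sets

There are a closed Riemann surface `S` (compact, connected) with first Betti number at least `4`,
i.e. a closed orientable surface of genus at least two, and an isotopy `(f_t)` from the identity to
a homeomorphism `f` of `S` whose homological rotation set is not a union of finitely many convex
sets.
-/

open Topology Filter Set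
open scoped unitInterval Manifold ContDiff

namespace Pool.Agent.Results.MP_1ac403_an.NotFiniteUnion

open Pool.Agent.helper18.Rot

theorem result : ∃ (S : Type) (_ : TopologicalSpace S) (_ : ChartedSpace ℂ S),
    IsManifold 𝓘(ℂ) ω S ∧ CompactSpace S ∧ T2Space S ∧ SecondCountableTopology S ∧
    ConnectedSpace S ∧ BettiGe S 4 ∧
    ∃ F : IdIsotopy S,
      ¬ ∃ 𝒞 : Set (Set (C(S, UnitAddCircle) → ℝ)), 𝒞.Finite ∧ (∀ A ∈ 𝒞, Convex ℝ A) ∧
        F.rotSet = ⋃₀ 𝒞 := by
  obtain ⟨P, p, haff, hp1, hUB, hLB⟩ := symbolic
  obtain ⟨S, tS, cS, h1, h2, h3, h4, h5, h6, F, h, D, hD, hU, hLo⟩ := surface P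
  exact ⟨S, tS, cS, h1, h2, h3, h4, h5, h6, F, core F h D hD P hU hLo p haff hp1 hUB hLB⟩

end Pool.Agent.Results.MP_1ac403_an.NotFiniteUnion
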